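import Mathlib

set_option autoImplicit false
set_option linter.unusedSectionVars false

/-!
# Permanents by expansion along the columns
-/

namespace Pool.Agent.TH687.PM

open Finset

section list

variable {ι : Type*} [DecidableEq ι]

/-- the sum of the products over all injective maps from the list of columns to the rows in `R` -/
def perL : Finset ι → List (ι → ℤ) → ℤ
  | _, [] => 1
  | R, f :: fs => ∑ r ∈ R, f r * perL (R.erase r) fs

@[simp] lemma perL_nil (R : Finset ι) : perL R [] = 1 := rfl

lemma perL_cons (R : Finset ι) (f : ι → ℤ) (fs : List (ι → ℤ)) :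
    perL R (f :: fs) = ∑ r ∈ R, f r * perL (R.erase r) fs := rfl

lemma perL_swap (R : Finset ι) (f g : ι → ℤ) (fs : List (ι → ℤ)) :
    perL R (f :: g :: fs) = perL R (g :: f :: fs) := by
  simp only [perL_cons, Finset.mul_sum]
  rw [Finset.sum_comm' (t' := R) (s' := fun s => R.erase s)]
  · apply Finset.sum_congr rfl
    intro s _
    apply Finset.sum_congr rfl
    intro r _
    rw [Finset.erase_right_comm]
    ring
  · intro r s
    simp only [Finset.mem_erase]
    tauto

lemma perL_perm {l l' : List (ι → ℤ)} (h : l.Perm l') (R : Finset ι) : perL R l = perL R l' := by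
  induction h generalizing R with
  | nil => rfl
  | cons f _ ih =>
    rw [perL_cons, perL_cons]
    exact Finset.sum_congr rfl fun r _ => by rw [ih]
  | swap f g l => exact perL_swap R g f l
  | trans _ _ ih1 ih2 => rw [ih1, ih2]

lemma perL_map {κ : Type*} [DecidableEq κ] (e : κ ↪ ι) (S : Finset κ) (l : List (ι → ℤ)) :
    perL (S.map e) l = perL S (l.map fun f => f ∘ e) := by
  induction l generalizing S with
  | nil => rfl
  | cons f fs ih =>
    rw [perL_cons, List.map_cons, perL_cons, Finset.sum_map]
    apply Finset.sum_congr rfl
    intro s _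
    rw [← ih, Finset.map_erase]
    rfl

end list

/-- expansion of the permanent along the first column -/
lemma permanent_succ {R : Type*} [CommRing R] {n : ℕ} (M : Matrix (Fin (n + 1)) (Fin (n + 1)) R) :
    M.permanent = ∑ i, M i 0 * (M.submatrix i.succAbove Fin.succ).permanent := by
  have h1 : M.permanent = ∑ p : Fin (n + 1), M p 0 * (Matrix.of fun r c : Fin n =>
      M (Equiv.swap 0 p r.succ) c.succ).permanent := by
    unfold Matrix.permanent
    rw [← Equiv.sum_comp (Equiv.Perm.decomposeFin.symm), Fintype.sum_prod_type]
    apply Finset.sum_congr rfl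
    intro p _
    rw [Finset.mul_sum]
    apply Finset.sum_congr rfl
    intro e _
    rw [Fin.prod_univ_succ]
    simp
  rw [h1]
  apply Finset.sum_congr rfl
  intro p _
  congr 1
  refine Fin.cases ?_ (fun i => ?_) p
  · congr 1
  · rw [← Matrix.permanent_permute_cols i.cycleRange (M.submatrix i.succ.succAbove Fin.succ)]
    congr 1
    ext r c
    simp [Fin.succAbove_cycleRange]

lemma permanent_eq_perL {n : ℕ} (M : Matrix (Fin n) (Fin n) ℤ) :
    M.permanent = perL Finset.univ (List.ofFn fun c r => M r c) := by
  induction n with
  | zero => rw [Matrix.permanent_isEmpty]; simp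
  | succ n ih =>
    rw [permanent_succ, List.ofFn_succ, perL_cons]
    apply Finset.sum_congr rfl
    intro i _
    congr 1
    have h1 : (Finset.univ : Finset (Fin (n + 1))).erase i
        = Finset.univ.map (Fin.succAboveEmb i) := by
      ext j
      simp only [Finset.mem_erase, Finset.mem_univ, and_true, Finset.mem_map, true_and]
      constructor
      · intro h
        obtain ⟨k, hk⟩ := Fin.exists_succAbove_eq h
        exact ⟨k, hk⟩
      · rintro ⟨k, rfl⟩
        exact Fin.succAbove_ne i k
    rw [ih, h1, perL_map, List.map_ofFn]
    rfl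

end Pool.Agent.TH687.PM
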