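import Mathlib
import Pool.Agent.TH687.PM.List

set_option autoImplicit false
set_option linter.unusedSectionVars false

/-!
# Permanents of sign matrices with nested columns
-/

namespace Pool.Agent.TH687.PM

open Finset Polynomial

/-- the functional which gives the permanents -/
def V (m : ℕ) (f : ℤ → ℤ) : ℤ := ∑ j ∈ range (m + 1), (-2) ^ (m - j) * ((fwdDiff (1 : ℤ))^[j] f) 0

lemma V_add (m : ℕ) (f g : ℤ → ℤ) : V m (f + g) = V m f + V m g := by
  unfold V
  rw [← Finset.sum_add_distrib]
  apply Finset.sum_congr rfl
  intro j _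
  rw [fwdDiff_iter_add, Pi.add_apply]
  ring

lemma V_smul (m : ℕ) (c : ℤ) (f : ℤ → ℤ) : V m (c • f) = c * V m f := by
  unfold V
  rw [Finset.mul_sum]
  apply Finset.sum_congr rfl
  intro j _
  rw [fwdDiff_iter_const_smul, Pi.smul_apply, smul_eq_mul]
  ring

lemma V_succ (m : ℕ) (P : ℤ[X]) (hP : P.natDegree ≤ m) :
    V (m + 1) P.eval = -2 * V m P.eval := by
  unfold V
  rw [Finset.sum_range_succ, Polynomial.fwdDiff_iter_eq_zero_of_degree_lt (by omega),
    Pi.zero_apply, mul_zero, add_zero, Finset.mul_sum]
  apply Finset.sum_congr rfl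
  intro j hj
  rw [Finset.mem_range] at hj
  rw [show m + 1 - j = (m - j) + 1 by omega, pow_succ]
  ring

lemma V_fact (t : ℕ) : V t (descPochhammer ℤ t).eval = t.factorial := by
  have h1 : ∀ j ≤ t, ((fwdDiff (1 : ℤ))^[j] (descPochhammer ℤ t).eval) (0 : ℤ)
      = if j = t then (t.factorial : ℤ) else 0 := by
    intro j hj
    rw [fwdDiff_iter_eq_sum_shift]
    have h2 : ∀ k : ℕ, (descPochhammer ℤ t).eval (0 + k • (1 : ℤ)) = (k.descFactorial t : ℤ) := by
      intro k
      rw [zero_add, nsmul_eq_mul, mul_one, descPochhammer_eval_eq_descFactorial]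
    simp only [h2]
    split_ifs with h
    · subst h
      rw [Finset.sum_range_succ, Finset.sum_eq_zero, zero_add]
      · simp [Nat.descFactorial_self]
      · intro k hk
        rw [Finset.mem_range] at hk
        rw [Nat.descFactorial_of_lt hk]
        simp
    · apply Finset.sum_eq_zero
      intro k hk
      rw [Finset.mem_range] at hk
      rw [Nat.descFactorial_of_lt (by omega)]
      simp
  unfold V
  rw [Finset.sum_eq_single t]
  · rw [h1 t le_rfl, if_pos rfl]
    simp
  · intro j hj hjt
    rw [Finset.mem_range] at hj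
    rw [h1 j (by omega), if_neg hjt, mul_zero]
  · simp

/-- the product of the linear factors belonging to the columns -/
noncomputable def Q : ℕ → List ℤ → ℤ[X]
  | _, [] => 1
  | t, n :: ns => (X - C (t : ℤ) + C n) * Q (t + 1) ns

@[simp] lemma Q_nil (t : ℕ) : Q t [] = 1 := rfl

lemma Q_cons (t : ℕ) (n : ℤ) (ns : List ℤ) :
    Q t (n :: ns) = (X - C (t : ℤ) + C n) * Q (t + 1) ns := rfl

lemma Q_shift (t : ℕ) (ns : List ℤ) : Q t (ns.map (· - 1)) = Q (t + 1) ns := by
  induction ns generalizing t with
  | nil => rfl
  | cons n ns ih =>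
    rw [List.map_cons, Q_cons, Q_cons, ih]
    congr 1
    simp only [Nat.cast_add, Nat.cast_one, map_sub, map_add, map_one]
    ring

lemma Q_append (t : ℕ) (l₁ l₂ : List ℤ) : Q t (l₁ ++ l₂) = Q t l₁ * Q (t + l₁.length) l₂ := by
  induction l₁ generalizing t with
  | nil => simp
  | cons n l ih =>
    rw [List.cons_append, Q_cons, Q_cons, ih, List.length_cons, mul_assoc]
    congr 3
    omega

lemma Q_natDegree (t : ℕ) (ns : List ℤ) : (Q t ns).natDegree ≤ ns.length := by
  induction ns generalizing t with
  | nil => simp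
  | cons n ns ih =>
    rw [Q_cons, List.length_cons]
    refine (Polynomial.natDegree_mul_le).trans ?_
    have h1 : (X - C (t : ℤ) + C n).natDegree ≤ 1 := by
      compute_degree
    have h2 := ih (t + 1)
    omega

section

variable {ι : Type*} [DecidableEq ι]

/-- the sign column which is `-1` on the set `B` -/
def col (B : Finset ι) (r : ι) : ℤ := if r ∈ B then -1 else 1

/-- the column of ones -/
def one (_ : ι) : ℤ := 1

lemma perL_ones (t : ℕ) (R : Finset ι) (hR : R.card = t) :
    perL R (List.replicate t one) = t.factorial := by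
  induction t generalizing R with
  | zero => simp
  | succ t ih =>
    rw [List.replicate_succ, perL_cons, Finset.sum_congr rfl (g := fun _ => (t.factorial : ℤ))]
    · rw [Finset.sum_const, hR, Nat.factorial_succ]
      simp
    · intro r hr
      rw [ih (R.erase r) (by rw [Finset.card_erase_of_mem hr, hR]; rfl)]
      simp [one]

lemma perL_col_cons (R B : Finset ι) (fs : List (ι → ℤ)) :
    perL R (col B :: fs) = perL R (one :: fs) - 2 * ∑ r ∈ R ∩ B, perL (R.erase r) fs := by
  rw [perL_cons, perL_cons, Finset.mul_sum, ← Finset.filter_mem_eq_inter, Finset.sum_filter,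
    ← Finset.sum_sub_distrib]
  apply Finset.sum_congr rfl
  intro r _
  unfold col one
  split_ifs <;> ring

theorem perL_nested (Bs : List (Finset ι)) (hB : Bs.Pairwise (· ⊆ ·)) (t : ℕ) (R : Finset ι)
    (hR : R.card = t + Bs.length) :
    perL R (Bs.map col ++ List.replicate t one)
      = V (t + Bs.length) (descPochhammer ℤ t * Q t (Bs.map fun B => ((R ∩ B).card : ℤ))).eval := by
  induction Bs generalizing t R with
  | nil =>
    simp only [List.map_nil, List.nil_append, Q_nil, mul_one, List.length_nil, add_zero] at hR ⊢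
    rw [perL_ones t R hR, V_fact]
  | cons B Bs ih =>
    rw [List.pairwise_cons] at hB
    rw [List.length_cons] at hR
    rw [List.map_cons, List.cons_append, perL_col_cons]
    have h1 : perL R (one :: (Bs.map col ++ List.replicate t one))
        = V (t + 1 + Bs.length) (descPochhammer ℤ (t + 1)
          * Q (t + 1) (Bs.map fun B => ((R ∩ B).card : ℤ))).eval := by
      rw [← ih hB.2 (t + 1) R (by omega), List.replicate_succ]
      exact perL_perm (List.perm_middle.symm) R
    set F : ℤ[X] := descPochhammer ℤ t * Q (t + 1) (Bs.map fun B => ((R ∩ B).card : ℤ)) with hF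
    have h2 : ∀ r ∈ R ∩ B, perL (R.erase r) (Bs.map col ++ List.replicate t one)
        = V (t + Bs.length) F.eval := by
      intro r hr
      rw [Finset.mem_inter] at hr
      rw [ih hB.2 t (R.erase r) (by rw [Finset.card_erase_of_mem hr.1]; omega)]
      have h5 : (Bs.map fun B => (((R.erase r) ∩ B).card : ℤ))
          = (Bs.map fun B => ((R ∩ B).card : ℤ)).map (· - 1) := by
        rw [List.map_map]
        apply List.map_congr_left
        intro B' hB'
        have h3 : r ∈ R ∩ B' := Finset.mem_inter.2 ⟨hr.1, hB.1 B' hB' hr.2⟩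
        rw [Finset.erase_inter, Finset.card_erase_of_mem h3, Function.comp_apply]
        have h4 : 1 ≤ (R ∩ B').card := Finset.card_pos.2 ⟨r, h3⟩
        push_cast [h4]
        ring
      rw [h5, Q_shift, hF]
    rw [h1, Finset.sum_congr rfl h2, Finset.sum_const, nsmul_eq_mul]
    have hdeg : F.natDegree ≤ t + Bs.length := by
      rw [hF]
      refine (Polynomial.natDegree_mul_le).trans ?_
      have h5 : (descPochhammer ℤ t).natDegree ≤ t := (descPochhammer_natDegree ℤ t).le
      have h6 := Q_natDegree (t + 1) (Bs.map fun B => ((R ∩ B).card : ℤ))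
      rw [List.length_map] at h6
      omega
    have h3 := V_succ (t + Bs.length) F hdeg
    have h4 : (descPochhammer ℤ t * Q t ((B :: Bs).map fun B => ((R ∩ B).card : ℤ))).eval
        = (descPochhammer ℤ (t + 1) * Q (t + 1) (Bs.map fun B => ((R ∩ B).card : ℤ))).eval
          + ((R ∩ B).card : ℤ) • F.eval := by
      funext x
      rw [List.map_cons, Q_cons, descPochhammer_succ_right, Pi.add_apply, Pi.smul_apply, hF]
      simp only [eval_mul, eval_add, eval_sub, eval_X, eval_C, smul_eq_mul, eval_natCast]
      ring
    rw [h4, V_add, V_smul, List.length_cons, show t + (Bs.length + 1) = t + Bs.length + 1 by ring,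
      h3, show t + 1 + Bs.length = t + Bs.length + 1 by ring]
    ring

end

end Pool.Agent.TH687.PM
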