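import Mathlib
import Pool.Agent.TH687.PM.Ferrers

set_option autoImplicit false
set_option linter.unusedSectionVars false

/-!
# The exact power of three in some values of the functional `V`
-/

namespace Pool.Agent.TH687.PM

open Finset

lemma cast_fwdDiff_iter (f : ℤ → ℤ) (j : ℕ) (y : ℤ) :
    (((fwdDiff (1 : ℤ))^[j] f y : ℤ) : ZMod 3)
      = (fwdDiff (1 : ℤ))^[j] (fun i => ((f i : ℤ) : ZMod 3)) y := by
  induction j generalizing f with
  | zero => rfl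
  | succ j ih =>
    have h : (fun i => ((fwdDiff (1 : ℤ) f i : ℤ) : ZMod 3))
        = fwdDiff (1 : ℤ) (fun i => ((f i : ℤ) : ZMod 3)) := by
      funext i
      simp [fwdDiff]
    rw [Function.iterate_succ_apply, Function.iterate_succ_apply, ih, h]

lemma cast_V (m : ℕ) (f : ℤ → ℤ) :
    ((V m f : ℤ) : ZMod 3)
      = ∑ j ∈ range (m + 1), (fwdDiff (1 : ℤ))^[j] (fun i => ((f i : ℤ) : ZMod 3)) 0 := by
  unfold V
  rw [Int.cast_sum]
  apply Finset.sum_congr rfl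
  intro j _
  rw [Int.cast_mul, cast_fwdDiff_iter, Int.cast_pow]
  have h : (((-2 : ℤ)) : ZMod 3) = 1 := by decide
  rw [h, one_pow, one_mul]

/-- the third of a multiple of three -/
def h3 (i : ℤ) : ℤ := if 3 ∣ i then i / 3 else 0

lemma h3_periodic (i : ℤ) : ((h3 (i + 9) : ℤ) : ZMod 3) = ((h3 i : ℤ) : ZMod 3) := by
  unfold h3
  by_cases h : (3 : ℤ) ∣ i
  · have h' : (3 : ℤ) ∣ i + 9 := by omega
    rw [if_pos h, if_pos h']
    have : (i + 9) / 3 = i / 3 + 3 := by omega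
    rw [this, Int.cast_add]
    have h0 : (((3 : ℤ)) : ZMod 3) = 0 := by decide
    rw [h0, add_zero]
  · have h' : ¬ (3 : ℤ) ∣ i + 9 := by omega
    rw [if_neg h, if_neg h']

lemma fwdDiff_nine : (fwdDiff (1 : ℤ))^[9] (fun i => ((h3 i : ℤ) : ZMod 3)) = 0 := by
  funext y
  rw [fwdDiff_iter_eq_sum_shift]
  simp only [Finset.sum_range_succ, Finset.sum_range_zero]
  have e : ∀ k : ℕ, (3 : ℤ) ∣ ((-1 : ℤ) ^ (9 - k) * (Nat.choose 9 k : ℤ)) →
      (((-1 : ℤ) ^ (9 - k) * (Nat.choose 9 k : ℤ))) • ((h3 (y + k • (1 : ℤ)) : ℤ) : ZMod 3) = 0 := by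
    intro k hk
    obtain ⟨c, hc⟩ := hk
    rw [hc, zsmul_eq_mul, Int.cast_mul]
    have h0 : (((3 : ℤ)) : ZMod 3) = 0 := by decide
    rw [h0]
    ring
  rw [e 1 (by decide), e 2 (by decide), e 3 (by decide), e 4 (by decide), e 5 (by decide),
    e 6 (by decide), e 7 (by decide), e 8 (by decide)]
  have h9 : ((h3 (y + 9 • (1 : ℤ)) : ℤ) : ZMod 3) = ((h3 y : ℤ) : ZMod 3) := by
    have : y + 9 • (1 : ℤ) = y + 9 := by simp
    rw [this, h3_periodic]
  rw [h9]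
  simp

lemma fwdDiff_ge_nine (j : ℕ) (hj : 9 ≤ j) :
    (fwdDiff (1 : ℤ))^[j] (fun i => ((h3 i : ℤ) : ZMod 3)) = 0 := by
  obtain ⟨k, rfl⟩ := Nat.exists_eq_add_of_le' hj
  rw [Function.iterate_add_apply, fwdDiff_nine]
  induction k with
  | zero => rfl
  | succ k ih =>
    rw [Function.iterate_succ_apply]
    have : fwdDiff (1 : ℤ) (0 : ℤ → ZMod 3) = 0 := by
      funext y
      simp [fwdDiff]
    rw [this]
    exact ih (by omega)

lemma cast_V_h3 (m : ℕ) (hm : 8 ≤ m) : ((V m h3 : ℤ) : ZMod 3) = 1 := by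
  rw [cast_V]
  have h1 : ∑ j ∈ range (m + 1), (fwdDiff (1 : ℤ))^[j] (fun i => ((h3 i : ℤ) : ZMod 3)) 0
      = ∑ j ∈ range 9, (fwdDiff (1 : ℤ))^[j] (fun i => ((h3 i : ℤ) : ZMod 3)) 0 := by
    symm
    apply Finset.sum_subset
    · intro j hj
      rw [Finset.mem_range] at hj ⊢
      omega
    · intro j _ hj
      rw [Finset.mem_range] at hj
      rw [fwdDiff_ge_nine j (by omega)]
      rfl
  rw [h1]
  simp only [fwdDiff_iter_eq_sum_shift, Finset.sum_range_succ, Finset.sum_range_zero]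
  decide

lemma exists_div (a b N : ℕ) (ha : Odd a) (hb : a + 1 ≤ b) (hN : a + 1 ≤ N) (i : ℤ) :
    ∃ g : ℤ, (i + 1) ^ b * i ^ a * (i - 1) ^ N = 3 ^ a * g ∧
      (g : ZMod 3) = (-1) ^ N * ((h3 i : ℤ) : ZMod 3) := by
  have h0 : (3 : ZMod 3) = 0 := by decide
  obtain ⟨q, hq⟩ : ∃ q : ℤ, i = 3 * q ∨ i = 3 * q + 1 ∨ i = 3 * q + 2 := ⟨i / 3, by omega⟩
  rcases hq with rfl | rfl | rfl
  · refine ⟨(3 * q + 1) ^ b * q ^ a * (3 * q - 1) ^ N, by ring, ?_⟩
    have h1 : h3 (3 * q) = q := by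
      unfold h3
      rw [if_pos (Dvd.intro q rfl)]
      omega
    rw [h1]
    push_cast
    rw [h0]
    have h2 : (q : ZMod 3) ^ a = (q : ZMod 3) := by
      obtain ⟨c, rfl⟩ := ha
      generalize (q : ZMod 3) = x
      rw [pow_succ, pow_mul]
      have h3 : ∀ x : ZMod 3, x = 0 ∨ x ^ 2 = 1 := by decide
      rcases h3 x with h | h
      · rw [h]; simp
      · rw [h]; simp
    rw [h2]
    ring
  · obtain ⟨d, rfl⟩ := Nat.exists_eq_add_of_le hN
    refine ⟨(3 * q + 2) ^ b * (3 * q + 1) ^ a * (3 ^ (d + 1) * q ^ (a + 1 + d)), ?_, ?_⟩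
    · have : (3 * q + 1 - 1 : ℤ) = 3 * q := by ring
      rw [this, mul_pow 3 q (a + 1 + d)]
      ring
    · have h1 : h3 (3 * q + 1) = 0 := by
        unfold h3
        rw [if_neg (by omega)]
      rw [h1]
      push_cast
      rw [h0, pow_succ]
      ring
  · obtain ⟨d, rfl⟩ := Nat.exists_eq_add_of_le hb
    refine ⟨3 ^ (d + 1) * (q + 1) ^ (a + 1 + d) * (3 * q + 2) ^ a * (3 * q + 2 - 1) ^ N, ?_, ?_⟩
    · have : (3 * q + 2 + 1 : ℤ) = 3 * (q + 1) := by ring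
      rw [this, mul_pow 3 (q + 1) (a + 1 + d)]
      ring
    · have h1 : h3 (3 * q + 2) = 0 := by
        unfold h3
        rw [if_neg (by omega)]
      rw [h1]
      push_cast
      rw [h0, pow_succ]
      ring

/-- the exact power of three -/
theorem V_three (m a b N : ℕ) (hm : 8 ≤ m) (ha : Odd a) (hb : a + 1 ≤ b) (hN : a + 1 ≤ N) :
    ∃ g : ℤ, V m (fun i => (i + 1) ^ b * i ^ a * (i - 1) ^ N) = 3 ^ a * g ∧ ¬ (3 : ℤ) ∣ g := by
  choose g hg1 hg2 using exists_div a b N ha hb hN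
  refine ⟨V m g, ?_, ?_⟩
  · rw [← V_smul]
    congr 1
    funext i
    rw [hg1 i]
    rfl
  · intro hdvd
    have h1 : ((V m g : ℤ) : ZMod 3) = 0 := by
      obtain ⟨c, hc⟩ := hdvd
      rw [hc, Int.cast_mul]
      have h0 : (((3 : ℤ)) : ZMod 3) = 0 := by decide
      rw [h0, zero_mul]
    have h2 : ((V m g : ℤ) : ZMod 3) = (-1) ^ N * ((V m h3 : ℤ) : ZMod 3) := by
      rw [cast_V, cast_V, Finset.mul_sum]
      apply Finset.sum_congr rfl
      intro j _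
      have h3 : (fun i => ((g i : ℤ) : ZMod 3))
          = ((-1 : ZMod 3) ^ N) • (fun i => ((h3 i : ℤ) : ZMod 3)) := by
        funext i
        rw [hg2 i]
        rfl
      rw [h3, fwdDiff_iter_const_smul]
      rfl
    rw [h1, cast_V_h3 m hm, mul_one] at h2
    exact pow_ne_zero N (by decide : (-1 : ZMod 3) ≠ 0) h2.symm

end Pool.Agent.TH687.PM
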