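import Mathlib
import Pool.Agent.TH687.PM.Adic

set_option autoImplicit false
set_option linter.unusedSectionVars false

/-!
# Exponentially many permanents of sign matrices
-/

namespace Pool.Agent.TH687.PM

open Finset Polynomial

lemma Q_ofFn (t k : ℕ) (c : Fin k → ℤ) :
    Q t (List.ofFn c) = ∏ i : Fin k, (X - C ((t + i : ℕ) : ℤ) + C (c i)) := by
  induction k generalizing t with
  | zero => simp
  | succ k ih =>
    rw [List.ofFn_succ, Q_cons, ih, Fin.prod_univ_succ]
    congr 1
    apply Finset.prod_congr rfl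
    intro i _
    congr 4
    simp only [Fin.val_succ]
    omega

/-- the thresholds -/
def thr (L i : ℕ) : ℕ := if i < L then i + 1 else i

/-- the rows above the threshold of the column `i` -/
def rows (n L i : ℕ) : Finset (Fin n) := univ.filter fun r => (r : ℕ) < thr L i

lemma rows_mono (n L : ℕ) {i j : ℕ} (h : i ≤ j) : rows n L i ⊆ rows n L j := by
  intro r hr
  unfold rows thr at *
  rw [Finset.mem_filter] at hr ⊢
  refine ⟨hr.1, ?_⟩
  have := hr.2
  split_ifs at * <;> omega

lemma card_rows (n L i : ℕ) (r : Fin n) (hi : thr L i ≤ n) :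
    (((univ.erase r) ∩ rows n L i).card : ℤ) = thr L i - if (r : ℕ) < thr L i then 1 else 0 := by
  have h1 : (rows n L i).card = thr L i := by
    have : rows n L i = univ.filter fun r : Fin n => (r : ℕ) < thr L i := rfl
    rw [this, Fin.card_filter_val_lt]
    omega
  have h2 : (univ.erase r) ∩ rows n L i = (rows n L i).erase r := by
    ext s
    simp only [Finset.mem_inter, Finset.mem_erase, Finset.mem_univ, and_true]
  rw [h2]
  by_cases hr : (r : ℕ) < thr L i
  · have hm : r ∈ rows n L i := by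
      unfold rows
      rw [Finset.mem_filter]
      exact ⟨Finset.mem_univ _, hr⟩
    rw [Finset.card_erase_of_mem hm, if_pos hr, h1]
    have : 1 ≤ thr L i := by omega
    push_cast [this]
    ring
  · have hm : r ∉ rows n L i := by
      unfold rows
      rw [Finset.mem_filter]
      rintro ⟨-, h⟩
      exact hr h
    rw [Finset.erase_eq_of_notMem hm, if_neg hr, h1]
    ring

/-- the minors of the last `k` columns -/
def minor (k L : ℕ) (r : Fin (k + 1)) : ℤ :=
  perL (univ.erase r) (List.ofFn fun i : Fin k => col (rows (k + 1) L i))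

lemma minor_eq (k L : ℕ) (r : Fin (k + 1)) (hr : (r : ℕ) < L) (hL : L ≤ k) :
    minor k L r = V k (fun i => (i + 1) ^ (r : ℕ) * i ^ (L - r) * (i - 1) ^ (k - L)) := by
  have h1 := perL_nested (List.ofFn fun i : Fin k => rows (k + 1) L i)
    (by
      rw [List.pairwise_ofFn]
      intro i j hij
      exact rows_mono _ _ (le_of_lt hij)) 0 (univ.erase r)
    (by rw [Finset.card_erase_of_mem (Finset.mem_univ r)]; simp)
  simp only [List.replicate_zero, List.append_nil, List.length_ofFn, zero_add, List.map_ofFn,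
    descPochhammer_zero, one_mul] at h1
  unfold minor
  have h2 : (List.ofFn fun i : Fin k => col (rows (k + 1) L i))
      = List.ofFn (col ∘ fun i : Fin k => rows (k + 1) L i) := rfl
  rw [h2, h1]
  congr 1
  have hthr : ∀ i < k, thr L i ≤ k + 1 := by
    intro i hi
    unfold thr
    split_ifs <;> omega
  have h3 : Q 0 (List.ofFn ((fun B => (((univ.erase r) ∩ B).card : ℤ)) ∘ fun i : Fin k =>
      rows (k + 1) L i)) = ∏ i ∈ range k, (X - C ((i : ℕ) : ℤ)
        + C ((thr L i : ℤ) - if (r : ℕ) < thr L i then 1 else 0)) := by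
    rw [Q_ofFn, Finset.prod_range]
    apply Finset.prod_congr rfl
    intro i _
    rw [Function.comp_apply, card_rows (k + 1) L i r (hthr i i.2), zero_add]
  rw [h3]
  have h4 : ∏ i ∈ range k, (X - C ((i : ℕ) : ℤ)
        + C ((thr L i : ℤ) - if (r : ℕ) < thr L i then 1 else 0))
      = ((X + 1) ^ (r : ℕ) * X ^ (L - r) * (X - 1) ^ (k - L) : ℤ[X]) := by
    obtain ⟨N, rfl⟩ := Nat.exists_eq_add_of_le hL
    obtain ⟨a, ha⟩ := Nat.exists_eq_add_of_lt hr
    rw [Finset.prod_range_add]
    have h5 : ∏ i ∈ range L, (X - C ((i : ℕ) : ℤ)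
        + C ((thr L i : ℤ) - if (r : ℕ) < thr L i then 1 else 0))
        = ((X + 1) ^ (r : ℕ) * X ^ (L - r) : ℤ[X]) := by
      have h6 : ∀ i ∈ range L, (X - C ((i : ℕ) : ℤ)
        + C ((thr L i : ℤ) - if (r : ℕ) < thr L i then 1 else 0))
          = if i < (r : ℕ) then (X + 1 : ℤ[X]) else X := by
        intro i hi
        rw [Finset.mem_range] at hi
        have h7 : thr L i = i + 1 := if_pos hi
        rw [h7]
        by_cases h8 : i < (r : ℕ)
        · rw [if_pos h8, if_neg (by omega)]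
          simp
          ring
        · rw [if_neg h8, if_pos (by omega)]
          simp
      rw [Finset.prod_congr rfl h6, Finset.prod_ite, Finset.prod_const, Finset.prod_const]
      congr 2
      · have : (range L).filter (fun i => i < (r : ℕ)) = range r := by
          ext i
          rw [Finset.mem_filter, Finset.mem_range, Finset.mem_range]
          omega
        rw [this, Finset.card_range]
      · have : (range L).filter (fun i => ¬ i < (r : ℕ)) = Finset.Ico (r : ℕ) L := by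
          ext i
          rw [Finset.mem_filter, Finset.mem_range, Finset.mem_Ico]
          omega
        rw [this, Nat.card_Ico]
    have h9 : ∏ i ∈ range N, (X - C ((L + i : ℕ) : ℤ)
        + C ((thr L (L + i) : ℤ) - if (r : ℕ) < thr L (L + i) then 1 else 0))
        = ((X - 1) ^ (L + N - L) : ℤ[X]) := by
      have h6 : ∀ i ∈ range N, (X - C ((L + i : ℕ) : ℤ)
        + C ((thr L (L + i) : ℤ) - if (r : ℕ) < thr L (L + i) then 1 else 0))
          = (X - 1 : ℤ[X]) := by
        intro i _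
        have h7 : thr L (L + i) = L + i := if_neg (by omega)
        rw [h7, if_pos (by omega)]
        simp
      rw [Finset.prod_congr rfl h6, Finset.prod_const, Finset.card_range]
      congr 1
      omega
    rw [h5, h9]
  rw [h4]
  funext x
  simp

/-- the matrix with the first column `z` -/
def mat (k L : ℕ) (z : Fin (k + 1) → ℤ) : Matrix (Fin (k + 1)) (Fin (k + 1)) ℤ :=
  Matrix.of fun r c => Fin.cases (z r) (fun i : Fin k => col (rows (k + 1) L i) r) c

lemma permanent_mat (k L : ℕ) (z : Fin (k + 1) → ℤ) :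
    (mat k L z).permanent = ∑ r, z r * minor k L r := by
  rw [permanent_eq_perL, List.ofFn_succ, perL_cons]
  rfl

/-- sums of terms with different exact powers of three are different -/
lemma sum_ne {T : ℕ} (u : Fin T → ℤ) (hu : ∀ i, ∃ g : ℤ, u i = 3 ^ (2 * (i : ℕ) + 1) * g ∧
    ¬ (3 : ℤ) ∣ g) (D D' : Finset (Fin T)) (i₀ : Fin T) (h1 : i₀ ∈ D) (h2 : i₀ ∉ D')
    (hD : ∀ i ∈ D, i₀ ≤ i) (hD' : ∀ i ∈ D', i₀ ≤ i) : ∑ i ∈ D, u i ≠ ∑ i ∈ D', u i := by
  intro hsum
  have h3 : ∀ i : Fin T, i₀ < i → (3 : ℤ) ^ (2 * (i₀ : ℕ) + 2) ∣ u i := by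
    intro i hi
    obtain ⟨g, hg, -⟩ := hu i
    rw [hg]
    apply Dvd.dvd.mul_right
    apply pow_dvd_pow
    have : (i₀ : ℕ) < i := hi
    omega
  have h4 : (3 : ℤ) ^ (2 * (i₀ : ℕ) + 2) ∣ ∑ i ∈ D.erase i₀, u i := by
    apply Finset.dvd_sum
    intro i hi
    rw [Finset.mem_erase] at hi
    exact h3 i (lt_of_le_of_ne (hD i hi.2) (Ne.symm hi.1))
  have h5 : (3 : ℤ) ^ (2 * (i₀ : ℕ) + 2) ∣ ∑ i ∈ D', u i := by
    apply Finset.dvd_sum
    intro i hi
    refine h3 i (lt_of_le_of_ne (hD' i hi) ?_)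
    rintro rfl
    exact h2 hi
  rw [← Finset.add_sum_erase D u h1] at hsum
  have h6 : (3 : ℤ) ^ (2 * (i₀ : ℕ) + 2) ∣ u i₀ := by
    have h7 : u i₀ = ∑ i ∈ D', u i - ∑ i ∈ D.erase i₀, u i := by rw [← hsum]; ring
    rw [h7]
    exact dvd_sub h5 h4
  obtain ⟨g, hg, hg3⟩ := hu i₀
  apply hg3
  rw [hg, show 2 * (i₀ : ℕ) + 2 = (2 * (i₀ : ℕ) + 1) + 1 by ring, pow_succ] at h6
  exact (mul_dvd_mul_iff_left (by positivity)).1 h6

lemma sum_injective {T : ℕ} (u : Fin T → ℤ) (hu : ∀ i, ∃ g : ℤ, u i = 3 ^ (2 * (i : ℕ) + 1) * g ∧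
    ¬ (3 : ℤ) ∣ g) : Function.Injective fun S : Finset (Fin T) => ∑ i ∈ S, u i := by
  intro S S' h
  simp only at h
  by_contra hne
  have h1 : ∑ i ∈ S \ S', u i = ∑ i ∈ S' \ S, u i := by
    have e1 := Finset.sum_sdiff_eq_sub (s₂ := S) (s₁ := S ∩ S') (f := u)
      (Finset.inter_subset_left)
    have e2 := Finset.sum_sdiff_eq_sub (s₂ := S') (s₁ := S ∩ S') (f := u)
      (Finset.inter_subset_right)
    rw [Finset.sdiff_inter_self_left] at e1
    rw [Finset.sdiff_inter_self_right] at e2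
    rw [e1, e2, h]
  have h2 : ((S \ S') ∪ (S' \ S)).Nonempty := by
    rw [Finset.nonempty_iff_ne_empty]
    intro h3
    apply hne
    rw [Finset.union_eq_empty] at h3
    exact Finset.Subset.antisymm (Finset.sdiff_eq_empty_iff_subset.1 h3.1)
      (Finset.sdiff_eq_empty_iff_subset.1 h3.2)
  set i₀ := ((S \ S') ∪ (S' \ S)).min' h2 with hi₀
  have h4 := Finset.min'_mem _ h2
  rw [← hi₀, Finset.mem_union] at h4
  have h5 : ∀ i ∈ S \ S', i₀ ≤ i := fun i hi =>
    Finset.min'_le _ _ (Finset.mem_union_left _ hi)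
  have h6 : ∀ i ∈ S' \ S, i₀ ≤ i := fun i hi =>
    Finset.min'_le _ _ (Finset.mem_union_right _ hi)
  rcases h4 with h4 | h4
  · refine sum_ne u hu _ _ i₀ h4 ?_ h5 h6 h1
    rw [Finset.mem_sdiff] at h4 ⊢
    exact fun h7 => h7.2 h4.1
  · refine sum_ne u hu _ _ i₀ h4 ?_ h6 h5 h1.symm
    rw [Finset.mem_sdiff] at h4 ⊢
    exact fun h7 => h7.2 h4.1

/-- the set of the permanents of sign matrices -/
def perSet (n : ℕ) : Set ℤ := {p : ℤ | ∃ A : Matrix (Fin n) (Fin n) ℤ,
  (∀ i j, A i j = 1 ∨ A i j = -1) ∧ A.permanent = p}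

lemma perSet_finite (n : ℕ) : (perSet n).Finite := by
  apply Set.Finite.subset (Set.finite_range fun s : Fin n → Fin n → Bool =>
    (Matrix.of fun i j => if s i j then (1 : ℤ) else -1 : Matrix (Fin n) (Fin n) ℤ).permanent)
  rintro p ⟨A, hA, rfl⟩
  refine ⟨fun i j => decide (A i j = 1), ?_⟩
  simp only
  congr 1
  ext i j
  rw [Matrix.of_apply]
  rcases hA i j with h | h
  · simp [h]
  · simp [h]

/-- There are at least `2 ^ T` permanents of `n × n` sign matrices if `n ≥ 6 T` and `n ≥ 9`. -/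
theorem card_permanents (T n : ℕ) (hn : 6 * T ≤ n) (hn9 : 9 ≤ n) : 2 ^ T ≤ (perSet n).ncard := by
  rcases Nat.eq_zero_or_pos T with rfl | hT
  · rw [pow_zero]
    refine (Set.ncard_pos (perSet_finite n)).2 ?_
    exact ⟨_, (Matrix.of fun _ _ => 1 : Matrix (Fin n) (Fin n) ℤ), fun i j => Or.inl rfl, rfl⟩
  obtain ⟨k, rfl⟩ : ∃ k, n = k + 1 := ⟨n - 1, by omega⟩
  let L := 4 * T - 1
  let ρ : Fin T → Fin (k + 1) := fun i => ⟨L - (2 * i + 1), by omega⟩
  have hρ : Function.Injective ρ := by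
    intro i j hij
    have h1 : L - (2 * (i : ℕ) + 1) = L - (2 * (j : ℕ) + 1) := congrArg Fin.val hij
    have := i.2
    have := j.2
    apply Fin.ext
    omega
  have hu : ∀ i : Fin T, ∃ g : ℤ, minor k L (ρ i) = 3 ^ (2 * (i : ℕ) + 1) * g ∧ ¬ (3 : ℤ) ∣ g := by
    intro i
    have hi := i.2
    have hρi : (ρ i : ℕ) = L - (2 * i + 1) := rfl
    rw [minor_eq k L (ρ i) (by rw [hρi]; omega) (by omega), hρi]
    have h2 : L - (L - (2 * (i : ℕ) + 1)) = 2 * i + 1 := by omega
    rw [h2]
    exact V_three k (2 * i + 1) _ _ (by omega) ⟨i, rfl⟩ (by omega) (by omega)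
  let z : Finset (Fin T) → Fin (k + 1) → ℤ := fun S r => if r ∈ S.image ρ then -1 else 1
  let F : Finset (Fin T) → ℤ := fun S => (mat k L (z S)).permanent
  have hF : ∀ S, F S = ∑ r, minor k L r - 2 * ∑ i ∈ S, minor k L (ρ i) := by
    intro S
    simp only [F]
    rw [permanent_mat]
    have h1 : ∑ i ∈ S, minor k L (ρ i) = ∑ r ∈ S.image ρ, minor k L r := by
      rw [Finset.sum_image fun i _ j _ h => hρ h]
    have h2 : ∑ r ∈ S.image ρ, minor k L r = ∑ r, if r ∈ S.image ρ then minor k L r else 0 := by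
      rw [Finset.sum_ite_mem, Finset.univ_inter]
    rw [h1, h2, Finset.mul_sum, ← Finset.sum_sub_distrib]
    apply Finset.sum_congr rfl
    intro r _
    simp only [z]
    split_ifs <;> ring
  have hinj : Function.Injective F := by
    intro S S' h
    apply sum_injective (fun i => minor k L (ρ i)) hu
    simp only
    rw [hF, hF] at h
    linarith
  have hsub : Set.range F ⊆ perSet (k + 1) := by
    rintro _ ⟨S, rfl⟩
    refine ⟨mat k L (z S), ?_, rfl⟩
    intro i j
    refine Fin.cases ?_ (fun j => ?_) j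
    · show z S i = 1 ∨ z S i = -1
      simp only [z]
      split_ifs
      · right; rfl
      · left; rfl
    · show col (rows (k + 1) L j) i = 1 ∨ col (rows (k + 1) L j) i = -1
      unfold col
      split_ifs
      · right; rfl
      · left; rfl
  have h3 := Set.ncard_le_ncard hsub (perSet_finite (k + 1))
  have h4 : (Set.range F).ncard = 2 ^ T := by
    rw [← Set.image_univ, Set.ncard_image_of_injective _ hinj, Set.ncard_univ, Nat.card_eq_fintype_card,
      Fintype.card_finset, Fintype.card_fin]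
  rw [h4] at h3
  exact h3

lemma pow_le (q : ℕ) (hq : 4 ≤ q) : (1.1 : ℝ) ^ (6 * q + 5) ≤ 2 ^ q := by
  induction q, hq using Nat.le_induction with
  | base => norm_num
  | succ q _ ih =>
    have h1 : (1.1 : ℝ) ^ (6 * (q + 1) + 5) = 1.1 ^ (6 * q + 5) * 1.1 ^ 6 := by
      rw [← pow_add]
      congr 1
    rw [h1, pow_succ]
    have h2 : (1.1 : ℝ) ^ 6 ≤ 2 := by norm_num
    have h3 : (0 : ℝ) ≤ 1.1 ^ 6 := by norm_num
    have h4 : (0 : ℝ) ≤ 2 ^ q := pow_nonneg (by norm_num) q
    exact mul_le_mul ih h2 h3 h4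

/-- The number of the permanents of `n × n` sign matrices grows exponentially. -/
theorem main : ∃ c : ℝ, 1 < c ∧ ∃ N : ℕ, ∀ n : ℕ, N ≤ n → c ^ n ≤ (((perSet n).ncard : ℕ) : ℝ) := by
  refine ⟨1.1, by norm_num, 24, fun n hn => ?_⟩
  have h1 := card_permanents (n / 6) n (by omega) (by omega)
  have h2 := pow_le (n / 6) (by omega)
  have h3 : (1.1 : ℝ) ^ n ≤ 1.1 ^ (6 * (n / 6) + 5) :=
    pow_le_pow_right₀ (by norm_num) (by omega)
  have h4 : ((2 ^ (n / 6) : ℕ) : ℝ) ≤ (((perSet n).ncard : ℕ) : ℝ) := by exact_mod_cast h1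
  push_cast at h4
  linarith

end Pool.Agent.TH687.PM
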